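import Pool.Agent.Q98.SPN.Stm

/-!
# Project SPN (helper98), job MAIN (by helper153)
-/

set_option autoImplicit false

open scoped Matrix.Norms.L2Operator Matrix
open Finset

namespace Pool.Agent.Q153.SPN

open Pool.Agent.Q98.SPN

/-- **MAIN** -/
theorem MAIN_ok (h : S_MAINP) : S_MAIN := by
  intro ι _ _ d N hN hd J _ _ A hA
  classical
  have hs : ((∑ i : {i // 0 < d i}, d i.1 ^ 2 : ℕ) : ℝ) ≤ N := by
    refine le_trans (Nat.cast_le.2 ?_) hd
    have h1 := Finset.sum_map (univ : Finset {i // 0 < d i}) (Function.Embedding.subtype _) (fun i => d i ^ 2)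
    exact h1.symm.le.trans (Finset.sum_le_sum_of_subset (subset_univ _))
  obtain ⟨ε, h1, h2⟩ := h {i // 0 < d i} (fun i => d i.1) N hN (fun i => i.2) hs J (fun g i => A g i.1)
    (fun g i => hA g i.1)
  refine ⟨ε, h1, fun i => ?_⟩
  rcases Nat.eq_zero_or_pos (d i) with h0 | h0
  · have h3 : ∑ g, ((ε g : ℝ) : ℂ) • A g i = 0 := by
      ext a b
      exact absurd a.isLt (by omega)
    rw [h3, norm_zero]
    positivity
  · exact h2 ⟨i, h0⟩

end Pool.Agent.Q153.SPN
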