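import Pool.Agent.Q98.SPN.Stm

/-!
# Project SPN (helper98), job TKN (by helper153)
-/

set_option autoImplicit false

open scoped Matrix.Norms.L2Operator Matrix ComplexOrder
open Finset

namespace Pool.Agent.Q153.SPN

open Pool.Agent.Q98.SPN

/-- **TKN** -/
theorem TKN_ok : S_TKN := by
  intro d κ Y
  have h1 : ((Yᴴ * Y) ^ κ).PosSemidef := (Matrix.posSemidef_conjTranspose_mul_self Y).pow κ
  have h2 : (0 : ℂ) ≤ Matrix.trace ((Yᴴ * Y) ^ κ) := h1.trace_nonneg
  exact (Complex.le_def.1 h2).1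

end Pool.Agent.Q153.SPN
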