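import Pool.Agent.Q98.SPN.Stm

/-!
# Project SPN (helper98), job TRG: the trace of left multiplication on the group algebra (by helper153)
-/

set_option autoImplicit false

open Finset

namespace Pool.Agent.Q153.SPN

open Pool.Agent.Q98.SPN

/-- **TRG** -/
theorem TRG_ok : S_TRG := by
  intro G _ _ a
  classical
  rw [LinearMap.trace_eq_matrix_trace ℂ (MonoidAlgebra.basis G ℂ), Matrix.trace]
  have h : ∀ g : G, (LinearMap.toMatrix (MonoidAlgebra.basis G ℂ) (MonoidAlgebra.basis G ℂ)
      (LinearMap.mulLeft ℂ a)).diag g = a.coeff 1 := by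
    intro g
    rw [Matrix.diag_apply, LinearMap.toMatrix_apply, MonoidAlgebra.basis_apply, LinearMap.mulLeft_apply]
    have h1 := MonoidAlgebra.coeff_mul_single_eq_coeff_mul (x := a) (r := (1 : ℂ)) (m := g) (m₁ := g) 1
      (fun m' _ => mul_eq_right)
    rw [mul_one] at h1
    exact h1
  rw [Finset.sum_congr rfl fun g _ => h g, sum_const, card_univ, nsmul_eq_mul]

end Pool.Agent.Q153.SPN
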